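import Pool.Agent.W209.KT.Stm

/-!
Project KT (helper209), part KT-CA: the coarse count.
-/

set_option autoImplicit false

open Pool.Agent.W209.KT

namespace Pool.Agent.W767.KT

theorem lev_le (k : ℕ) : lev k ≤ k := by
  unfold lev
  have h : 256 ^ Nat.log 256 (k + 1) ≤ k + 1 := Nat.pow_log_le_self 256 (Nat.succ_ne_zero k)
  have h2 : Nat.log 256 (k + 1) < 256 ^ Nat.log 256 (k + 1) := Nat.lt_pow_self (by norm_num)
  omega

theorem D_big (k : ℕ) : 2 ^ 20 ≤ D k := by
  unfold D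
  apply Nat.pow_le_pow_right (by norm_num)
  have : 1 ≤ 36 ^ k := Nat.one_le_pow _ _ (by norm_num)
  omega

theorem D_lev (k : ℕ) : 2 ^ (12 * lev k) ≤ D k := by
  unfold D
  apply Nat.pow_le_pow_right (by norm_num)
  have h1 := lev_le k
  have h2 : k < 36 ^ k := Nat.lt_pow_self (by norm_num)
  omega

theorem D_pos (k : ℕ) : 0 < D k := lt_of_lt_of_le (by norm_num) (D_big k)

theorem E_pos (k : ℕ) : 0 < E k := by unfold E; positivity

theorem E_le (k : ℕ) : E k ≤ D k := Nat.pow_log_le_self 3 (D_pos k).ne'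

theorem D_lt (k : ℕ) : D k < 3 * E k := by
  have h := Nat.lt_pow_succ_log_self (b := 3) (by norm_num) (D k)
  unfold E
  rw [pow_succ] at h
  omega

theorem cop (k : ℕ) : IsCoprime ((D k : ℕ) : ℤ) ((E k : ℕ) : ℤ) := by
  rw [Nat.isCoprime_iff_coprime]
  unfold E D
  exact Nat.Coprime.pow _ _ (by norm_num)

theorem p_pos (k : ℕ) (j : Fin 2) : 0 < p k j := by
  unfold p; split_ifs
  · exact D_pos k
  · exact E_pos k

theorem p_le (k : ℕ) (j : Fin 2) : p k j ≤ D k := by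
  unfold p; split_ifs
  · exact le_rfl
  · exact E_le k

theorem E_le_p (k : ℕ) (j : Fin 2) : E k ≤ p k j := by
  unfold p; split_ifs
  · exact E_le k
  · exact le_rfl

theorem theta (A : Fin 2 → Fin 11 → ℝ) (s : ℕ → Fin 2 → Fin 11 → ℤ) (hG : Good A s) (k : ℕ)
    (j : Fin 2) :
    |A j 10 - s k j 10 / p k j| * ((D k : ℝ) * E k) ≤ 1 / (100 * D k) := by
  have hc := hG.close k j 10
  have hg : g (u k) 10 = 1 := by
    have e : ((10 : Fin 11) : ℕ) = 10 := rfl
    unfold g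
    rw [e]; simp
  rw [hg, mul_one] at hc
  have hD : (2 : ℝ) ^ 20 ≤ D k := by exact_mod_cast D_big k
  have hD0 : (0 : ℝ) < D k := by exact_mod_cast D_pos k
  have hE0 : (0 : ℝ) < E k := by exact_mod_cast E_pos k
  have hp0 : (0 : ℝ) < p k j := by exact_mod_cast p_pos k j
  have hE : (E k : ℝ) ≤ D k := by exact_mod_cast E_le k
  have hEp : (E k : ℝ) ≤ p k j := by exact_mod_cast E_le_p k j
  have hl : (2 : ℝ) ^ (12 * lev k) ≤ D k := by exact_mod_cast D_lev k
  have hv : |v j| ≤ 2 := by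
    unfold v; split_ifs
    · norm_num
    · rw [abs_of_nonneg (Real.sqrt_nonneg 2)]
      rw [show (2 : ℝ) = Real.sqrt 4 by
        rw [show (4 : ℝ) = 2 ^ 2 by norm_num, Real.sqrt_sq (by norm_num)]]
      apply Real.sqrt_le_sqrt
      rw [show Real.sqrt 4 = 2 by
        rw [show (4 : ℝ) = 2 ^ 2 by norm_num, Real.sqrt_sq (by norm_num)]]
      norm_num
  have hF : (D k : ℝ) ^ 11 ≤ F k := by
    unfold F
    rw [le_div_iff₀ (by positivity)]
    calc (D k : ℝ) ^ 11 * 2 ^ (12 * lev k) ≤ (D k : ℝ) ^ 11 * D k :=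
          mul_le_mul_of_nonneg_left hl (by positivity)
      _ = (D k : ℝ) ^ 12 := by ring
  have hF0 : 0 < F k := lt_of_lt_of_le (by positivity) hF
  have h1 : |v j / (F k * p k j)| * ((D k : ℝ) * E k) ≤ 2 / (D k : ℝ) ^ 10 := by
    rw [abs_div, abs_of_pos (mul_pos hF0 hp0)]
    calc |v j| / (F k * p k j) * ((D k : ℝ) * E k)
        ≤ 2 / (F k * p k j) * ((D k : ℝ) * p k j) := by
          apply mul_le_mul
          · exact div_le_div_of_nonneg_right hv (mul_pos hF0 hp0).le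
          · exact mul_le_mul_of_nonneg_left hEp hD0.le
          · positivity
          · positivity
      _ = 2 * D k / F k := by field_simp
      _ ≤ 2 * D k / (D k : ℝ) ^ 11 := by
          apply div_le_div_of_nonneg_left _ _ hF
          · positivity
          · positivity
      _ = 2 / (D k : ℝ) ^ 10 := by field_simp
  have h2 : 20 / (D k : ℝ) ^ 36 * ((D k : ℝ) * E k) ≤ 20 / (D k : ℝ) ^ 10 := by
    calc 20 / (D k : ℝ) ^ 36 * ((D k : ℝ) * E k)
        ≤ 20 / (D k : ℝ) ^ 36 * ((D k : ℝ) * D k) := by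
          apply mul_le_mul_of_nonneg_left _ (by positivity)
          exact mul_le_mul_of_nonneg_left hE hD0.le
      _ = 20 / (D k : ℝ) ^ 34 := by field_simp
      _ ≤ 20 / (D k : ℝ) ^ 10 := by
          apply div_le_div_of_nonneg_left (by norm_num) (by positivity)
          apply pow_le_pow_right₀ _ (by norm_num)
          linarith [show (1 : ℝ) ≤ 2 ^ 20 by norm_num]
  have h3 : |A j 10 - s k j 10 / p k j| ≤ |v j / (F k * p k j)| + 20 / (D k : ℝ) ^ 36 := by
    have h4 := abs_add_le (A j 10 - s k j 10 / p k j - v j / (F k * p k j))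
      (v j / (F k * p k j))
    have e : A j 10 - s k j 10 / p k j - v j / (F k * p k j) + v j / (F k * p k j) =
      A j 10 - s k j 10 / p k j := by ring
    rw [e] at h4
    linarith
  calc |A j 10 - s k j 10 / p k j| * ((D k : ℝ) * E k)
      ≤ (|v j / (F k * p k j)| + 20 / (D k : ℝ) ^ 36) * ((D k : ℝ) * E k) :=
        mul_le_mul_of_nonneg_right h3 (by positivity)
    _ = |v j / (F k * p k j)| * ((D k : ℝ) * E k) +
        20 / (D k : ℝ) ^ 36 * ((D k : ℝ) * E k) := by ring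
    _ ≤ 2 / (D k : ℝ) ^ 10 + 20 / (D k : ℝ) ^ 10 := add_le_add h1 h2
    _ = 22 / (D k : ℝ) ^ 10 := by ring
    _ ≤ 1 / (100 * D k) := by
        rw [div_le_div_iff₀ (by positivity) (by positivity)]
        have h5 : (2200 : ℝ) ≤ (D k : ℝ) ^ 9 := by
          calc (2200 : ℝ) ≤ ((2 : ℝ) ^ 20) ^ 9 := by norm_num
            _ ≤ (D k : ℝ) ^ 9 := pow_le_pow_left₀ (by positivity) hD 9
        calc 22 * (100 * (D k : ℝ)) = 2200 * D k := by ring
          _ ≤ (D k : ℝ) ^ 9 * D k := mul_le_mul_of_nonneg_right h5 hD0.le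
          _ = 1 * (D k : ℝ) ^ 10 := by ring

theorem CA (_h : S_cov) : S_CA := by
  refine ⟨200000, by norm_num, ?_⟩
  intro A s hG k L ψ hψ hL
  have hD0 : (0 : ℝ) < D k := by exact_mod_cast D_pos k
  have hE0 : (0 : ℝ) < E k := by exact_mod_cast E_pos k
  have hψ1 : 1 / (100 * D k) ≤ ψ := by
    rw [div_le_iff₀ (by positivity)]; linarith
  have hψ0 : 0 < ψ := lt_of_lt_of_le (by positivity) hψ1
  obtain ⟨P, hP⟩ : ∃ P : ℤ, P = (D k : ℤ) * E k := ⟨_, rfl⟩
  have hPR : (P : ℝ) = (D k : ℝ) * E k := by rw [hP]; push_cast; ring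
  have hP0 : 0 < P := by
    rw [hP]; exact mul_pos (by exact_mod_cast D_pos k) (by exact_mod_cast E_pos k)
  have hP0R : (0 : ℝ) < P := by exact_mod_cast hP0
  set w : Fin 2 → ℤ → ℤ := fun j y => s k j 10 * (y % P) - p k j * round (A j 10 * y) with hw
  set c : Fin 2 → ℤ → ℤ := fun j b =>
    ⌈-((p k j : ℝ) * (A j 10 * (P * b))) - 2 * ψ * p k j⌉ with hc
  have key : ∀ (j : Fin 2) (y : ℤ), nrm (A j 10 * y) ≤ ψ →
      0 ≤ w j y - c j (y / P) ∧ w j y - c j (y / P) ≤ ⌊4 * ψ * p k j⌋ := by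
    intro j y hy
    have hp0 : (0 : ℝ) < p k j := by exact_mod_cast p_pos k j
    have hθ := theta A s hG k j
    rw [← hPR] at hθ
    unfold nrm at hy
    have hr0 : 0 ≤ y % P := Int.emod_nonneg _ hP0.ne'
    have hr1 : y % P < P := Int.emod_lt_of_pos _ hP0
    have hr0R : (0 : ℝ) ≤ ((y % P : ℤ) : ℝ) := by exact_mod_cast hr0
    have hr1R : ((y % P : ℤ) : ℝ) ≤ P := by exact_mod_cast hr1.le
    have hyR : (y : ℝ) = P * ((y / P : ℤ) : ℝ) + ((y % P : ℤ) : ℝ) := by
      have := Int.mul_ediv_add_emod y P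
      exact_mod_cast this.symm
    have hθr : |A j 10 - s k j 10 / p k j| * ((y % P : ℤ) : ℝ) ≤ ψ := by
      calc |A j 10 - s k j 10 / p k j| * ((y % P : ℤ) : ℝ)
          ≤ |A j 10 - s k j 10 / p k j| * P := mul_le_mul_of_nonneg_left hr1R (abs_nonneg _)
        _ ≤ 1 / (100 * D k) := hθ
        _ ≤ ψ := hψ1
    have hwR : ((w j y : ℤ) : ℝ) = s k j 10 * ((y % P : ℤ) : ℝ) -
        p k j * (round (A j 10 * y) : ℝ) := by
      simp only [hw]; push_cast; ring
    have hmain : (p k j : ℝ) * (A j 10 * (P * ((y / P : ℤ) : ℝ))) + ((w j y : ℤ) : ℝ) =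
        p k j * (A j 10 * y - (round (A j 10 * y) : ℝ)) -
        p k j * ((A j 10 - s k j 10 / p k j) * ((y % P : ℤ) : ℝ)) := by
      rw [hwR]
      have e : (p k j : ℝ) * ((A j 10 - s k j 10 / p k j) * ((y % P : ℤ) : ℝ)) =
        p k j * (A j 10 * ((y % P : ℤ) : ℝ)) - s k j 10 * ((y % P : ℤ) : ℝ) := by
        field_simp
      rw [e]
      have e2 : (p k j : ℝ) * (A j 10 * y - (round (A j 10 * y) : ℝ)) =
        p k j * (A j 10 * (P * ((y / P : ℤ) : ℝ) + ((y % P : ℤ) : ℝ))) -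
        p k j * (round (A j 10 * y) : ℝ) := by
        rw [← hyR]; ring
      rw [e2]; ring
    have hb : |(p k j : ℝ) * (A j 10 * (P * ((y / P : ℤ) : ℝ))) + ((w j y : ℤ) : ℝ)| ≤
        2 * ψ * p k j := by
      rw [hmain]
      have h1 : |(p k j : ℝ) * (A j 10 * y - (round (A j 10 * y) : ℝ))| ≤ p k j * ψ := by
        rw [abs_mul, abs_of_pos hp0]
        exact mul_le_mul_of_nonneg_left hy hp0.le
      have h2 : |(p k j : ℝ) * ((A j 10 - s k j 10 / p k j) * ((y % P : ℤ) : ℝ))| ≤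
          p k j * ψ := by
        rw [abs_mul, abs_of_pos hp0, abs_mul, abs_of_nonneg hr0R]
        exact mul_le_mul_of_nonneg_left hθr hp0.le
      have h3 := abs_sub (p k j * (A j 10 * y - (round (A j 10 * y) : ℝ)))
        ((p k j : ℝ) * ((A j 10 - s k j 10 / p k j) * ((y % P : ℤ) : ℝ)))
      linarith
    obtain ⟨hb1, hb2⟩ := abs_le.mp hb
    have hc1 : c j (y / P) ≤ w j y := by
      simp only [hc]
      rw [Int.ceil_le]
      linarith
    have hc2 : -((p k j : ℝ) * (A j 10 * (P * ((y / P : ℤ) : ℝ)))) - 2 * ψ * p k j ≤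
        ((c j (y / P) : ℤ) : ℝ) := by
      simp only [hc]
      exact Int.le_ceil _
    refine ⟨by linarith, ?_⟩
    rw [Int.le_floor]
    push_cast
    linarith
  have hcard : cnt (fun j => A j 10) L ψ ≤
      ((Finset.Icc (-((L : ℤ) / P) - 1) ((L : ℤ) / P)) ×ˢ
        ((Finset.Icc (0 : ℤ) ⌊4 * ψ * p k 0⌋) ×ˢ (Finset.Icc (0 : ℤ) ⌊4 * ψ * p k 1⌋))).card := by
    unfold cnt
    rw [← Set.ncard_coe_finset]
    refine Set.ncard_le_ncard_of_injOn
      (fun y : ℤ => (y / P, (w 0 y - c 0 (y / P), w 1 y - c 1 (y / P)))) ?_ ?_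
      (Finset.finite_toSet _)
    · intro y hy
      obtain ⟨hyL, hyn⟩ := hy
      have h0 := key 0 y (hyn 0)
      have h1 := key 1 y (hyn 1)
      have hy1 := abs_le.mp hyL
      simp only [Finset.coe_product, Set.mem_prod, Finset.mem_coe, Finset.mem_Icc]
      refine ⟨⟨?_, ?_⟩, h0, h1⟩
      · rw [Int.le_ediv_iff_mul_le hP0]
        have h2 := Int.lt_ediv_add_one_mul_self (L : ℤ) hP0
        nlinarith [hy1.1]
      · exact Int.ediv_le_ediv hP0 hy1.2
    · intro y _ y' _ hyy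
      simp only [Prod.mk.injEq] at hyy
      obtain ⟨hq, hw0, hw1⟩ := hyy
      rw [← hq] at hw0 hw1
      have hdiv : ∀ j : Fin 2, w j y = w j y' → (p k j : ℤ) ∣ (y % P - y' % P) := by
        intro j hj
        have h1 : (p k j : ℤ) ∣ s k j 10 * (y % P - y' % P) := by
          refine ⟨round (A j 10 * y) - round (A j 10 * y'), ?_⟩
          simp only [hw] at hj
          linarith
        exact (hG.copr k j).symm.dvd_of_dvd_mul_left h1
      have hd0 := hdiv 0 (by linarith)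
      have hd1 := hdiv 1 (by linarith)
      have hd0' : (D k : ℤ) ∣ (y % P - y' % P) := by simpa [p] using hd0
      have hd1' : (E k : ℤ) ∣ (y % P - y' % P) := by simpa [p] using hd1
      have hd : P ∣ (y % P - y' % P) := by
        rw [hP] at *
        exact (cop k).mul_dvd hd0' hd1'
      have hr0 : 0 ≤ y % P := Int.emod_nonneg _ hP0.ne'
      have hr1 : y % P < P := Int.emod_lt_of_pos _ hP0
      have hr0' : 0 ≤ y' % P := Int.emod_nonneg _ hP0.ne'
      have hr1' : y' % P < P := Int.emod_lt_of_pos _ hP0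
      have hz : y % P - y' % P = 0 := by
        apply Int.eq_zero_of_abs_lt_dvd hd
        rw [abs_lt]; constructor <;> linarith
      have e1 := Int.mul_ediv_add_emod y P
      have e2 := Int.mul_ediv_add_emod y' P
      rw [← hq] at e2
      linarith
  have hLP0 : 0 ≤ (L : ℤ) / P := Int.ediv_nonneg (by positivity) hP0.le
  have hcardR : (cnt (fun j => A j 10) L ψ : ℝ) ≤
      (2 * (((L : ℤ) / P : ℤ) : ℝ) + 2) * ((4 * ψ * p k 0 + 1) * (4 * ψ * p k 1 + 1)) := by
    have hf : ∀ j : Fin 2, (((Finset.Icc (0 : ℤ) ⌊4 * ψ * p k j⌋).card : ℕ) : ℝ) ≤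
        4 * ψ * p k j + 1 := by
      intro j
      rw [Int.card_Icc]
      have hn : 0 ≤ ⌊4 * ψ * p k j⌋ := Int.floor_nonneg.mpr (by positivity)
      have e : (((⌊4 * ψ * p k j⌋ + 1 - 0).toNat : ℕ) : ℤ) = ⌊4 * ψ * p k j⌋ + 1 := by
        rw [Int.toNat_of_nonneg (by linarith)]; ring
      have e' : (((⌊4 * ψ * p k j⌋ + 1 - 0).toNat : ℕ) : ℝ) = (⌊4 * ψ * p k j⌋ : ℝ) + 1 := by
        exact_mod_cast e
      rw [e']
      have := Int.floor_le (4 * ψ * p k j)
      linarith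
    have hb : (((Finset.Icc (-((L : ℤ) / P) - 1) ((L : ℤ) / P)).card : ℕ) : ℝ) =
        2 * (((L : ℤ) / P : ℤ) : ℝ) + 2 := by
      rw [Int.card_Icc]
      have e : ((((L : ℤ) / P + 1 - (-((L : ℤ) / P) - 1)).toNat : ℕ) : ℤ) =
          2 * ((L : ℤ) / P) + 2 := by
        rw [Int.toNat_of_nonneg (by linarith)]; ring
      exact_mod_cast e
    rw [Finset.card_product, Finset.card_product] at hcard
    have hcard' : (cnt (fun j => A j 10) L ψ : ℝ) ≤
        (((Finset.Icc (-((L : ℤ) / P) - 1) ((L : ℤ) / P)).card : ℕ) : ℝ) *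
          ((((Finset.Icc (0 : ℤ) ⌊4 * ψ * p k 0⌋).card : ℕ) : ℝ) *
          (((Finset.Icc (0 : ℤ) ⌊4 * ψ * p k 1⌋).card : ℕ) : ℝ)) := by exact_mod_cast hcard
    refine hcard'.trans ?_
    rw [hb]
    apply mul_le_mul_of_nonneg_left _ (by
      have : (0 : ℝ) ≤ (((L : ℤ) / P : ℤ) : ℝ) := by exact_mod_cast hLP0
      linarith)
    exact mul_le_mul (hf 0) (hf 1) (by positivity) (by positivity)
  have hpj : ∀ j : Fin 2, 4 * ψ * p k j + 1 ≤ 104 * (ψ * D k) := by
    intro j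
    have h1 : (p k j : ℝ) ≤ D k := by exact_mod_cast p_le k j
    have h2 : ψ * p k j ≤ ψ * D k := mul_le_mul_of_nonneg_left h1 hψ0.le
    nlinarith
  have hLPR : (((L : ℤ) / P : ℤ) : ℝ) ≤ L / P := by
    rw [le_div_iff₀ hP0R]
    have := Int.ediv_mul_le (L : ℤ) hP0.ne'
    exact_mod_cast this
  have hDE : (D k : ℝ) ^ 2 ≤ 3 * P := by
    rw [hPR]
    have h1 : (D k : ℝ) < 3 * E k := by exact_mod_cast D_lt k
    nlinarith
  have hPL : (P : ℝ) ≤ L := by
    have h1 : ((D k : ℝ)) ^ 2 ≤ L := by exact_mod_cast hL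
    have h2 : (E k : ℝ) ≤ D k := by exact_mod_cast E_le k
    rw [hPR]; nlinarith
  have h1 : 2 * (((L : ℤ) / P : ℤ) : ℝ) + 2 ≤ 12 * L / (D k : ℝ) ^ 2 := by
    have h2 : (1 : ℝ) ≤ L / P := by rw [le_div_iff₀ hP0R]; linarith
    have h3 : (L : ℝ) / P ≤ 3 * L / (D k : ℝ) ^ 2 := by
      rw [div_le_div_iff₀ hP0R (by positivity)]
      have : (0 : ℝ) ≤ L := by positivity
      nlinarith
    have h4 : 12 * (L : ℝ) / (D k : ℝ) ^ 2 = 4 * (3 * L / (D k : ℝ) ^ 2) := by ring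
    rw [h4]; linarith
  calc (cnt (fun j => A j 10) L ψ : ℝ) ≤
      (2 * (((L : ℤ) / P : ℤ) : ℝ) + 2) * ((4 * ψ * p k 0 + 1) * (4 * ψ * p k 1 + 1)) := hcardR
    _ ≤ (12 * L / (D k : ℝ) ^ 2) * ((104 * (ψ * D k)) * (104 * (ψ * D k))) := by
        apply mul_le_mul h1 _ (by positivity) (by positivity)
        exact mul_le_mul (hpj 0) (hpj 1) (by positivity) (by positivity)
    _ = 129792 * L * ψ ^ 2 := by field_simp; ring
    _ ≤ 200000 * L * ψ ^ 2 := by
        have : (0 : ℝ) ≤ L * ψ ^ 2 := by positivity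
        nlinarith

end Pool.Agent.W767.KT
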